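import Pool.Agent.H73.CBE.Stmts

/-!
# PCB: a net for `1/2`

A set `Y` with `Sep (1/2) Y` has at most `5 ^ (2 n)` elements; one of maximal cardinality is a net.
-/

set_option autoImplicit false

namespace Pool.CBE

theorem pcb_finrank (n : ℕ) : Module.finrank ℝ (E n) = 2 * n := by
  have h : Module.finrank ℝ ℂ * Module.finrank ℂ (E n) = Module.finrank ℝ (E n) :=
    Module.finrank_mul_finrank ℝ ℂ (E n)
  rw [← h, Complex.finrank_real_complex, finrank_euclideanSpace_fin]

theorem pcb_card (h1 : DLBStmt) (h2 : PKBStmt) (n : ℕ) (Y : Finset (E n))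
    (hY : Sep (1 / 2) Y) : Y.card ≤ 5 ^ (2 * n) := by
  have h := h2 (E n) Y 1 (1 / 2) (by norm_num) (by norm_num) (fun x hx => (hY.1 x hx).le)
    (fun x hx y hy hxy => (hY.2 x hx y hy hxy).trans (h1 n x y (hY.1 x hx) (hY.1 y hy)).2.2.2.2)
  rw [pcb_finrank] at h
  have h5 : (1 + 2 * (1 : ℝ) / (1 / 2)) = 5 := by norm_num
  rw [h5] at h
  exact_mod_cast h

theorem PCB_thm (h1 : DLBStmt) (h2 : PKBStmt) : PCBStmt := by
  intro n
  classical
  let P : ℕ → Prop := fun k => ∃ Y : Finset (E n), Sep (1 / 2) Y ∧ Y.card = k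
  have hP0 : P 0 := by
    refine ⟨∅, ⟨?_, ?_⟩, Finset.card_empty⟩
    · intro x hx
      exact absurd hx (Finset.notMem_empty x)
    · intro x hx
      exact absurd hx (Finset.notMem_empty x)
  have hmax : P (Nat.findGreatest P (5 ^ (2 * n))) :=
    Nat.findGreatest_spec (P := P) (Nat.zero_le _) hP0
  obtain ⟨Y, hY, hYc⟩ := hmax
  refine ⟨Y, ⟨hY, ?_⟩, pcb_card h1 h2 n Y hY⟩
  intro z hz
  by_contra hcon
  push Not at hcon
  have hzz : dl z z = 0 := by
    have := (h1 n z z hz hz).2.2.2.2
    rw [sub_self, norm_zero] at this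
    exact le_antisymm this (h1 n z z hz hz).2.2.1
  have hzY : z ∉ Y := by
    intro hzY
    have := hcon z hzY
    rw [hzz] at this
    norm_num at this
  have hS : Sep (1 / 2) (insert z Y) := by
    constructor
    · intro x hx
      rcases Finset.mem_insert.1 hx with rfl | hx
      · exact hz
      · exact hY.1 x hx
    · intro x hx y hy hxy
      rcases Finset.mem_insert.1 hx with hx1 | hx1
      · rcases Finset.mem_insert.1 hy with hy1 | hy1
        · exact absurd (hx1.trans hy1.symm) hxy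
        · rw [hx1, (h1 n z y hz (hY.1 y hy1)).2.1]
          exact hcon y hy1
      · rcases Finset.mem_insert.1 hy with hy1 | hy1
        · rw [hy1]
          exact hcon x hx1
        · exact hY.2 x hx1 y hy1 hxy
  have hle : (insert z Y).card ≤ Nat.findGreatest P (5 ^ (2 * n)) :=
    Nat.le_findGreatest (pcb_card h1 h2 n _ hS) ⟨_, hS, rfl⟩
  rw [Finset.card_insert_of_notMem hzY, hYc] at hle
  omega

end Pool.CBE
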